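import Pool.Agent.ACK.StmtsA

set_option autoImplicit false

namespace Pool.Agent.ACK.H23

open Pool.Agent.ACK

theorem rot_getD (c : ℕ) (l : List ℕ) (hc : 1 ≤ c) (hl : l.length = 2 * c) (p : ZMod (2 * c))
    (m : ℕ) (hm : m < 2 * c) :
    (l.rotate (p.val + 1)).getD m 0 = wd c l (p + 1 + (m : ZMod (2 * c))) := by
  haveI : NeZero (2 * c) := ⟨by omega⟩
  have h1 : (p + 1 + (m : ZMod (2 * c))).val = (m + (p.val + 1)) % (2 * c) := by
    have h2 : p + 1 + (m : ZMod (2 * c)) = ((m + (p.val + 1) : ℕ) : ZMod (2 * c)) := by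
      push_cast
      rw [ZMod.natCast_zmod_val]
      ring
    rw [h2, ZMod.val_natCast]
  unfold wd
  rw [h1]
  have hm1 : m < (l.rotate (p.val + 1)).length := by
    rw [List.length_rotate, hl]; exact hm
  have hm2 : (m + (p.val + 1)) % (2 * c) < l.length := by
    rw [hl]; exact Nat.mod_lt _ (by omega)
  rw [List.getD_eq_getElem _ _ hm1, List.getD_eq_getElem _ _ hm2, List.getElem_rotate]
  congr 2

theorem split_at (l : List ℕ) (m : ℕ) (hm : m + 1 < l.length) :
    l = l.take m ++ l.getD m 0 :: l.getD (m + 1) 0 :: l.drop (m + 2) := by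
  have h1 : m < l.length := by omega
  rw [List.getD_eq_getElem _ _ h1, List.getD_eq_getElem _ _ hm]
  conv_lhs => rw [← List.take_append_drop m l]
  congr 1
  rw [List.drop_eq_getElem_cons h1, List.drop_eq_getElem_cons hm]

theorem split_ends (l : List ℕ) (h : 2 ≤ l.length) :
    ∃ M : List ℕ, l = l.getD 0 0 :: (M ++ [l.getD (l.length - 1) 0]) := by
  obtain _ | ⟨a, t⟩ := l
  · simp at h
  · have ht : t ≠ [] := by
      rintro rfl
      simp at h
    refine ⟨t.dropLast, ?_⟩
    have h3 : (a :: t).getD ((a :: t).length - 1) 0 = t.getLast ht := by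
      have h4 : (a :: t).length - 1 < (a :: t).length := by simp
      rw [List.getD_eq_getElem _ _ h4, ← List.getLast_cons ht, List.getLast_eq_getElem]
    rw [h3, List.dropLast_append_getLast]
    simp

theorem bgl : BglStmt := by
  intro c l s p q hc hl hlp hb
  haveI : NeZero (2 * c) := ⟨by omega⟩
  have key := rot_getD c l hc hl p
  set l' := l.rotate (p.val + 1) with hl'
  have hlen : l'.length = 2 * c := by rw [hl', List.length_rotate, hl]
  have hnn : ((2 * c : ℕ) : ZMod (2 * c)) = 0 := ZMod.natCast_self _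
  -- the ends
  have h0 : l'.getD 0 0 = wd c l (p + 1) := by
    rw [key 0 (by omega)]; simp
  have hlast : l'.getD (l'.length - 1) 0 = wd c l p := by
    rw [hlen, key (2 * c - 1) (by omega)]
    congr 1
    have h1 : ((2 * c - 1 : ℕ) : ZMod (2 * c)) = -1 := by
      have h2 : ((2 * c - 1 : ℕ) : ZMod (2 * c)) + 1 = 0 := by
        have h3 : ((2 * c - 1 + 1 : ℕ) : ZMod (2 * c)) = 0 := by
          rw [Nat.sub_add_cancel (by omega)]; exact hnn
        simpa [Nat.cast_add] using h3
      exact eq_neg_of_add_eq_zero_left h2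
    rw [h1]; ring
  obtain ⟨M, hM⟩ := split_ends l' (by omega)
  rw [h0, hlast] at hM
  -- the position m
  obtain ⟨m, hmdef⟩ : ∃ m, m = (q - (p + 1)).val := ⟨_, rfl⟩
  have hmlt : m < 2 * c := by rw [hmdef]; exact ZMod.val_lt _
  have hmq : p + 1 + (m : ZMod (2 * c)) = q := by
    rw [hmdef, ZMod.natCast_zmod_val]; ring
  have hpq : p ≠ q := hb.1
  have hm1 : m + 1 < 2 * c := by
    by_contra hcon
    have h1 : m + 1 = 2 * c := by omega
    apply hpq
    have h2 : ((m + 1 : ℕ) : ZMod (2 * c)) = 0 := by rw [h1]; exact hnn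
    push_cast at h2
    rw [← hmq]
    calc p = p + 0 := by ring
      _ = p + ((m : ZMod (2 * c)) + 1) := by rw [h2]
      _ = p + 1 + (m : ZMod (2 * c)) := by ring
  have hg0 : l'.getD m 0 = wd c l q := by rw [key m hmlt, hmq]
  have hg1 : l'.getD (m + 1) 0 = wd c l (q + 1) := by
    rw [key (m + 1) hm1, ← hmq]
    congr 1
    push_cast
    ring
  have hsp := split_at l' m (by omega)
  rw [hg0, hg1] at hsp
  have hG1 : m ≠ 0 → l'.take m ≠ [] := by
    intro hm0 hnil
    have := congrArg List.length hnil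
    rw [List.length_take, hlen] at this
    simp at this
    omega
  have hG2 : m + 2 ≠ 2 * c → l'.drop (m + 2) ≠ [] := by
    intro hm2 hnil
    have := congrArg List.length hnil
    rw [List.length_drop, hlen] at this
    simp at this
    omega
  have hz : m = 0 → q = p + 1 := by
    intro h
    rw [← hmq, h]; simp
  have he : m + 2 = 2 * c → q + 1 = p := by
    intro h
    have h2 : ((m + 2 : ℕ) : ZMod (2 * c)) = 0 := by rw [h]; exact hnn
    push_cast at h2
    rw [← hmq]
    calc p + 1 + (m : ZMod (2 * c)) + 1 = p + ((m : ZMod (2 * c)) + 2) := by ring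
      _ = p := by rw [h2]; ring
  rcases hb.2 with ⟨a1, a2, a3, a4⟩ | ⟨a1, a2, a3, a4, a5, a6⟩
  · refine ⟨wd c l p, wd c l (p + 1), M, l'.take m, l'.drop (m + 2), hG1 ?_, hG2 ?_, hM,
      Or.inl ⟨a1, a2, ?_⟩⟩
    · intro h
      apply hlp p
      rw [← a3, hz h]
    · intro h
      apply hlp p
      rw [← a4, he h]
    · rw [a3, a4] at hsp
      exact hsp
  · refine ⟨wd c l p, wd c l (p + 1), M, l'.take m, l'.drop (m + 2), hG1 ?_, hG2 ?_, hM,
      Or.inr ⟨a1, a2, ?_⟩⟩
    · intro h
      exact a6 (hz h).symm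
    · intro h
      exact a5 (he h)
    · rw [a3, a4] at hsp
      exact hsp

end Pool.Agent.ACK.H23
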